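import Pool.Agent.TH309.RigidSync

/-!
# The rigid synchrony conjecture

Every rigid synchrony pattern of a hyperbolic periodic orbit of an admissible vector field of a
coupled cell network is balanced.

The definitions `Network`, `InputIso`, `Ph`, `st`, `Admissible` are in
`Pool/Agent/H848R3/RI/Net.lean`, `IsFund` is in `Pool/Agent/H848R3/RI/Lin.lean`, and
`PeriodicOrbit`, `Hyperbolic` are in `Pool/Agent/H848R3/RI/Hyp.lean`.

Idea of the proof. Among all small admissible deformations of the field, their nearby periodic
orbits and all times `t₀`, choose one with the largest number of pairs of nodes in different states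
and of nodes with nonzero velocity at time `t₀`. Perturbations by bump functions with shrinking
support around the input tuple of a node kick the velocities of exactly the nodes whose input tuple
is at that place at that time, while the first order response of the orbit is bounded by the time
integral of the bump; for the nodes at rest a dimension count is used. It follows that at `t₀` nodes
in equal states have matching input states: the relation of equal states at time `t₀` is balanced.
By the invariance of balanced polydiagonals nodes in equal states at `t₀` are synchronous for all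
times on the deformed orbit. If the deformation is small enough, nodes that are synchronous on the
deformed orbit are synchronous on the given one, and rigidity gives the converse.
-/

set_option autoImplicit false

open Pool.Agent.H848R3.RI

namespace Pool.Agent.Results.MP_e1010f_an.RigidSynchrony

/-- The synchrony pattern of the curve `x`: `c` and `d` are related iff `x_c(t) = x_d(t)` for
all `t`. -/
def Pattern {N : Network} {V : N.SType → Type} (x : ℝ → Ph N V) (c d : N.Node) : Prop :=
  ∀ t, st (x t) c = st (x t) d

/-- The synchrony pattern of the `T`-periodic orbit `x` of the admissible field `f` is rigid: there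
is `δ > 0` such that for every admissible `C¹` field `g` with `‖g - f‖ < δ`, `‖Dg - Df‖ < δ`
everywhere, nodes which are synchronous on `x` are synchronous on the nearby periodic orbit of `g`
(that is, on every periodic orbit `x'` of `g`, of period `T'` with `|T' - T| < δ`, which is
`δ`-close to `x` on `[0, T]`). -/
def RigidPattern {N : Network} {V : N.SType → Type} [∀ τ, NormedAddCommGroup (V τ)]
    [∀ τ, NormedSpace ℝ (V τ)] (f : Ph N V → Ph N V) (x : ℝ → Ph N V) (T : ℝ) : Prop :=
  ∃ δ > 0, ∀ g : Ph N V → Ph N V, Admissible g →
    (∀ z, ‖g z - f z‖ < δ ∧ ‖fderiv ℝ g z - fderiv ℝ f z‖ < δ) →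
    ∀ (x' : ℝ → Ph N V) (T' : ℝ), PeriodicOrbit g x' T' → |T' - T| < δ →
      (∀ t ∈ Set.Icc 0 T, ‖x' t - x t‖ < δ) →
      ∀ c d : N.Node, Pattern x c d → Pattern x' c d

/-- A relation `R` on the nodes is balanced: if `R c d`, then the nodes `c`, `d` have equal type and
there is an input isomorphism (a bijection preserving arrow types) `β : I(c) → I(d)` with
`R (tail e) (tail (β e))` for all arrows `e ∈ I(c)`. -/
def Balanced (N : Network) (R : N.Node → N.Node → Prop) : Prop :=
  ∀ c d : N.Node, R c d → ∃ β : InputIso N c d,
    ∀ e : N.In c, R (N.tail e.1) (N.tail (β.toEquiv e).1)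

/-- **The rigid synchrony conjecture**: for every network, every admissible `C¹` vector field `f`
and every hyperbolic periodic orbit of `f`, a rigid synchrony pattern is balanced. -/
theorem result (N : Network) (V : N.SType → Type) [∀ τ, NormedAddCommGroup (V τ)]
    [∀ τ, NormedSpace ℝ (V τ)] [∀ τ, FiniteDimensional ℝ (V τ)] [∀ τ, Nontrivial (V τ)]
    (f : Ph N V → Ph N V) (hf : Admissible f) (x : ℝ → Ph N V) (T : ℝ)
    (hx : PeriodicOrbit f x T) (hh : Hyperbolic f x T) (hr : RigidPattern f x T) :
    Balanced N (Pattern x) := by
  intro c d hcd
  obtain ⟨δ, hδ, hrig⟩ := hr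
  have hp : PerOrb f x T := hx.perOrb hf.smooth
  refine Pool.Agent.TH309.RigidSync.rigid_sync hf hp (hh.nDeg hf.smooth hp) hδ ?_ c d hcd
  intro f' x' T' hc a b hab
  obtain ⟨δ', h1, h2⟩ := hc.near
  exact hrig f' hc.adm (fun z => ⟨(h2 z).1.trans_lt h1, (h2 z).2.trans_lt h1⟩) x' T'
    hc.orb.periodicOrbit hc.per hc.close a b hab

end Pool.Agent.Results.MP_e1010f_an.RigidSynchrony
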